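import Pool.Agent.Lib.MP_1a91b9_ntT.Rg.Va

/-!
# Rg: the normalised values of the partial L-series are in `K`
-/

set_option autoImplicit false

namespace Pool.Agent.Lib.MP_1a91b9_ntT.Rg

open NumberField Pool.Agent.Lib.MP_1a91b9_ntG Pool.Agent.Lib.MP_1a91b9_ntT.Ell
open Pool.Agent.Lib.MP_1a91b9_ntT.Rq (Fix dt dt_ne dt_rel fx_K va_conj)

universe u

/-- An auxiliary prime number. -/
theorem exists_q (f : 𝓞 K) (hf : f ≠ 0) (n : ℕ) (hn : 0 < n) :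
    ∃ q : ℕ, q.Prime ∧ q ≠ 3 ∧ IsCoprime (2 : 𝓞 K) (q : 𝓞 K) ∧
      IsCoprime ((2 : 𝓞 K) ^ n - 1) (q : 𝓞 K) ∧ IsCoprime f (q : 𝓞 K) := by
  obtain ⟨N, hN⟩ : ∃ N : ℕ, N = Ideal.absNorm (Ideal.span {f}) := ⟨_, rfl⟩
  have hN0 : 0 < N := by
    rw [hN, Nat.pos_iff_ne_zero, Ne, Ideal.absNorm_eq_zero_iff, Ideal.span_singleton_eq_bot]
    exact hf
  have h2n : 0 < 2 ^ n - 1 := by
    have : 2 ^ 1 ≤ 2 ^ n := Nat.pow_le_pow_right (by norm_num) hn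
    omega
  obtain ⟨q, hq, hqp⟩ := Nat.exists_infinite_primes (6 * (2 ^ n - 1) * N + 1)
  have hpos : 0 < 6 * (2 ^ n - 1) * N := by positivity
  have hcop : ∀ k : ℕ, k ∣ 6 * (2 ^ n - 1) * N → k.Coprime q := by
    intro k hk
    refine Nat.Coprime.coprime_dvd_left hk ?_
    rw [Nat.coprime_comm, Nat.Prime.coprime_iff_not_dvd hqp]
    intro h
    have := Nat.le_of_dvd hpos h
    omega
  refine ⟨q, hqp, ?_, ?_, ?_, ?_⟩
  · rintro rfl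
    have := hcop 3 (by
      rw [mul_assoc]
      exact Dvd.dvd.mul_right (by norm_num) _)
    norm_num at this
  · have h := Nat.Coprime.cast (R := 𝓞 K) (hcop 2 (by
      rw [mul_assoc]
      exact Dvd.dvd.mul_right (by norm_num) _))
    exact_mod_cast h
  · have h := Nat.Coprime.cast (R := 𝓞 K) (hcop (2 ^ n - 1) ((Dvd.intro_left 6 rfl).mul_right _))
    rw [Nat.cast_sub Nat.one_le_two_pow] at h
    exact_mod_cast h
  · have h := Nat.Coprime.cast (R := 𝓞 K) (hcop N (Dvd.intro_left _ rfl))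
    refine h.of_isCoprime_of_dvd_left ?_
    rw [← Ideal.mem_span_singleton, hN]
    exact Ideal.absNorm_mem _

variable {F : Type u} [Field F] [NumberField F] [Algebra K F]

theorem val_K {m : ℕ} {f : 𝓞 K} {κ : ℂ} (hκ : Kap f κ) (hf0 : f ≠ 0)
    (σ : Fin (m + 1) → (F →ₐ[K] ℂ)) (hσ : Function.Bijective σ)
    (hu : ∀ v ∈ unV (Ideal.span {up f F}), Algebra.norm K ((v : 𝓞 F) : F) = 1)
    (htor : ∀ v ∈ unV (Ideal.span {up f F}), ∀ k : ℕ, 0 < k → v ^ k = 1 → v = 1)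
    (𝔟 : Ideal (𝓞 F)) (hb : 𝔟 ≠ ⊥) (t : 𝓞 F) (ht : t ∈ 𝔟) (ht' : t ∉ Ideal.span {up f F} * 𝔟)
    (g : ℂ → ℂ) (hg : Differentiable ℂ g)
    (hgs : ∀ X : Set F, IsRepsU (Ideal.span {up f F}) (cls 𝔟 (Ideal.span {up f F}) t) X →
      ∀ s : ℂ, 2 < s.re → HasSum (fun z : X => term s (z : F)) (g s))
    (bb : Module.Basis (Fin (m + 1)) K F) :
    ∃ x : K, g 1 = κ ^ (m + 1) * dt σ bb * embK x := by
  have hn : Module.finrank K F = m + 1 := nf_card σ hσ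
  obtain ⟨q, hq, hq3, h2, h2n, hfq⟩ := exists_q f hf0 (Module.finrank K F) (by omega)
  obtain ⟨x, hx⟩ := mem_K (z := g 1 / (κ ^ (m + 1) * dt σ bb)) fun τ hτ =>
    val_fixed_q hq hq3 2 h2 h2n hτ hκ hf0 hfq σ hσ hu htor 𝔟 hb t ht ht' g hg hgs bb
  refine ⟨x, ?_⟩
  rw [hx, mul_div_cancel₀]
  exact mul_ne_zero (pow_ne_zero _ hκ.ne) (dt_ne σ hσ bb)

end Pool.Agent.Lib.MP_1a91b9_ntT.Rg
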