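import Pool.Agent.Lib.MP_1a91b9_ntT.Rg.Lv

/-!
# Rg: the modulus `3`
-/

set_option autoImplicit false

namespace Pool.Agent.Lib.MP_1a91b9_ntT.Rg

open NumberField IsDedekindDomain Pool.Agent.Lib.MP_1a91b9_nt Pool.Agent.Lib.MP_1a91b9_ntT
  Pool.Agent.Lib.MP_1a91b9_ntT.S4 Pool.Agent.Lib.MP_1a91b9_ntG
open Pool.Agent.Lib.MP_1a91b9_ntT.Rq (dt)

universe u

theorem three_ne : (3 : 𝓞 K) ≠ 0 := by
  have : CharZero (𝓞 K) := inferInstance
  norm_num

instance isMod_three : IsMod (3 : 𝓞 K) where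
  ne := three_ne
  inj := S4.unit_eq_one
  surj := by
    intro a ha
    obtain ⟨b, hb, hs⟩ := S4.exists_gen (Ideal.span {a})
      ((Ideal.isCoprime_span_singleton_iff _ _).2 ha)
    have h1 := Ideal.span_singleton_eq_span_singleton.1 hs.symm
    obtain ⟨u, hu⟩ := h1
    refine ⟨u, ?_⟩
    rw [mul_comm, hu]
    exact hb

variable {F : Type u} [Field F] [NumberField F] [Algebra K F]

theorem psbC_three : MP_1a91b9_ntG.psbC (3 : 𝓞 K) F = psibC F := rfl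

theorem lval_three {m : ℕ} (σ : Fin (m + 1) → (F →ₐ[K] ℂ)) (hσ : Function.Bijective σ)
    (bb : Module.Basis (Fin (m + 1)) K F) :
    ∃ (L : ℂ → ℂ) (x : K), Differentiable ℂ L ∧
      (∀ s : ℂ, 2 < s.re → L s = Lf (psibC F) s) ∧ L 1 = Om ^ (m + 1) * dt σ bb * embK x := by
  have h3 : Ideal.span {up (3 : 𝓞 K) F} ≤ Ideal.span {(3 : 𝓞 F)} := by
    rw [up, map_ofNat]
  obtain ⟨L, x, h1, h2, h4⟩ := lval (3 : 𝓞 K) kap_three σ hσ
    (fun v hv k hk hvk => un_tors _ h3 v hv k hk hvk) bb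
  exact ⟨L, x, h1, fun s hs => by rw [h2 s hs, psbC_three], h4⟩

end Pool.Agent.Lib.MP_1a91b9_ntT.Rg
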