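import Pool.Agent.Lib.MP_1a91b9_ntT.Rg.Three
import Pool.Agent.Lib.MP_1a91b9_ntT.Rq.Fin

/-!
# The quotient `L(E/N, 1) √|D| / ∏ Ω_v` is rational, for every number field `N` such that the
valuation of `3` is not a cube at the places above `3`
-/

set_option autoImplicit false

namespace Pool.Agent.Lib.MP_1a91b9_ntT.Rg

open IsDedekindDomain NumberField Pool.Agent.Lib.MP_1a91b9_ntT.S4 Pool.Agent.Lib.MP_1a91b9_nt
open Pool.Agent.Lib.MP_1a91b9_ntT.Rq (dt disc_K disc_N normSq_rat ar_real)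

universe u

theorem rat_K (F : Type u) [Field F] [NumberField F] [Algebra K F] (hF : NoCube3 F) :
    ∃ (g : ℂ → ℂ) (q : ℚ), Differentiable ℂ g ∧ (∀ s : ℂ, 2 < s.re → g s = (E F).LSeries s) ∧
      g 1 * (Real.sqrt |(discr F : ℝ)| : ℝ) =
        (q : ℂ) * (∏ v : InfinitePlace F, Per.perAt (E F) v : ℝ) := by
  have hex := nf_exists (F := F)
  obtain ⟨m, hm⟩ : ∃ m, Module.finrank K F = m + 1 :=
    Nat.exists_eq_succ_of_ne_zero Module.finrank_pos.ne'
  rw [hm] at hex
  obtain ⟨σ, hσ⟩ := hex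
  set bb : Module.Basis (Fin (m + 1)) K F := Module.finBasisOfFinrankEq K F hm
  obtain ⟨L, κ, hL, hL1, hLv⟩ := lval_three σ hσ bb
  obtain ⟨q0, hq0, hdisc⟩ := disc_K σ hσ bb
  obtain ⟨q1, hq1⟩ := normSq_rat κ
  have hfr : Module.finrank ℚ F = 2 * (m + 1) := by
    rw [← Module.finrank_mul_finrank ℚ K F, u4_finrank, hm]
  set g : ℂ → ℂ := fun s => (starRingEnd ℂ) (L ((starRingEnd ℂ) s)) * L s with hg
  have hgs : ∀ s : ℂ, 2 < s.re → g s = (E F).LSeries s := by
    intro s hs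
    change (starRingEnd ℂ) (L ((starRingEnd ℂ) s)) * L s = _
    rw [LSeries_E hF s hs, hL1 s hs, hL1 _ (by rw [Complex.conj_re]; exact hs), ← Lf_conj]
  have hg1 : g 1 = ((‖L 1‖ ^ 2 : ℝ) : ℂ) := by
    change (starRingEnd ℂ) (L ((starRingEnd ℂ) 1)) * L 1 = _
    rw [map_one, mul_comm, Complex.mul_conj, Complex.normSq_eq_norm_sq]
  have hcard : Fintype.card (InfinitePlace F) = m + 1 := by
    have h1 := InfinitePlace.card_eq_nrRealPlaces_add_nrComplexPlaces F
    have h2 := InfinitePlace.card_add_two_mul_card_eq_rank F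
    have h3 : IsTotallyComplex F := totallyComplex_of_K
    have h4 : InfinitePlace.nrRealPlaces F = 0 := IsTotallyComplex.nrRealPlaces_eq_zero F
    omega
  have hs3 : 0 < Real.sqrt 3 := Real.sqrt_pos.2 (by norm_num)
  obtain ⟨DD, hDD⟩ : ∃ z : ℤ, z = |discr F| := ⟨_, rfl⟩
  refine ⟨g, q1 * q0 * (DD : ℚ) / 3 ^ (m + 1), (differentiable_conj_conj hL).mul hL, hgs, ?_⟩
  have key : ‖L 1‖ ^ 2 * Real.sqrt |(discr F : ℝ)| =
      (q1 * q0 * (DD : ℝ) / 3 ^ (m + 1)) *
        (Real.sqrt 3 ^ (m + 1) * ‖Om‖ ^ (2 * (m + 1))) := by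
    rw [hDD, Int.cast_abs]
    have h33 : (3 : ℝ) ^ (m + 1) = Real.sqrt 3 ^ (m + 1) * Real.sqrt 3 ^ (m + 1) := by
      rw [← mul_pow, Real.mul_self_sqrt (by norm_num)]
    have hD : |(discr F : ℝ)| = Real.sqrt |(discr F : ℝ)| * Real.sqrt |(discr F : ℝ)| :=
      (Real.mul_self_sqrt (abs_nonneg _)).symm
    have hLn : ‖L 1‖ ^ 2 = ‖Om‖ ^ (2 * (m + 1)) * ‖dt σ bb‖ ^ 2 * q1 := by
      rw [hLv, norm_mul, norm_mul, norm_pow, hq1]
      ring
    rw [hLn, h33]
    have h3 : Real.sqrt 3 ^ (m + 1) ≠ 0 := (pow_pos hs3 _).ne'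
    set r : ℝ := Real.sqrt |(discr F : ℝ)| with hr
    rw [hD]
    field_simp
    linear_combination (‖Om‖ ^ (2 * (m + 1)) * q1 * r) * hdisc
  rw [hg1, Per.prod_perAt, hcard, hfr, ← Complex.ofReal_mul, key]
  push_cast
  ring

/-- The value of the L-function of `E` at `1` over every number field `N` such that the valuation
of `3` is not a cube at the places above `3`: a rational multiple of the periods. -/
theorem rat_N (N : Type u) [Field N] [NumberField N] (hN : NoCube3 N) :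
    ∃ (g : ℂ → ℂ) (q : ℚ), Differentiable ℂ g ∧ (∀ s : ℂ, 2 < s.re → g s = (E N).LSeries s) ∧
      g 1 * (Real.sqrt |(discr N : ℝ)| : ℝ) =
        (q : ℂ) * (∏ v : InfinitePlace N, Per.perAt (E N) v : ℝ) := by
  by_cases hy : ∃ y : N, y ^ 2 = -3
  · obtain ⟨y, hy⟩ := hy
    obtain ⟨_, -⟩ := S7.exists_algebraK N y hy
    exact rat_K N hN
  · push Not at hy
    obtain ⟨F, _, _, _, _, y, hy2, hom, hfr, hgen⟩ := S7.exists_up N hy
    have hn : ∀ x : N, algebraMap N F x ≠ algebraMap K F om := by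
      intro x hx
      apply hy (2 * x + 1)
      apply (algebraMap N F).injective
      rw [map_pow, map_add, map_mul, map_one, map_ofNat, hx, map_neg, map_ofNat]
      have h1 : algebraMap K F ((2 * om + 1) ^ 2) = algebraMap K F (-3) := by rw [S7.om_sq]
      rw [map_pow, map_add, map_mul, map_one, map_ofNat, map_neg, map_ofNat] at h1
      exact h1
    have hex := nf_exists (F := F)
    obtain ⟨m, hm⟩ : ∃ m, Module.finrank K F = m + 1 :=
      Nat.exists_eq_succ_of_ne_zero Module.finrank_pos.ne'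
    rw [hm] at hex
    obtain ⟨σ, hσ⟩ := hex
    obtain ⟨bb, q, hq0, hdq⟩ := disc_N hfr hn σ hσ
    obtain ⟨L, κ, hL, hL1, hLv⟩ := lval_three σ hσ bb
    have hfrN : Module.finrank ℚ N = m + 1 := by
      have h1 := Module.finrank_mul_finrank ℚ N F
      have h2 := Module.finrank_mul_finrank ℚ K F
      rw [hfr] at h1
      rw [u4_finrank, hm] at h2
      omega
    have hgs : ∀ s : ℂ, 2 < s.re → L s = (E N).LSeries s := fun s hs => by
      rw [hL1 s hs, LSeries_B hfr hn hN s hs]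
    have hre := Per.value_real hL hgs
    have hP := Per.prod_perAt_pos (F := N)
    have hrk := InfinitePlace.card_add_two_mul_card_eq_rank N
    have hcard := InfinitePlace.card_eq_nrRealPlaces_add_nrComplexPlaces N
    set r1 := InfinitePlace.nrRealPlaces N with hr1
    set r2 := InfinitePlace.nrComplexPlaces N with hr2
    have hsgn : (discr N : ℝ) = (-1) ^ r2 * |(discr N : ℝ)| := by
      have h1 := sign_discr (K := N)
      have h2 := Int.sign_mul_abs (discr N)
      rw [h1] at h2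
      have h3 : (((-1) ^ r2 * |discr N| : ℤ) : ℝ) = ((discr N : ℤ) : ℝ) := by rw [h2]
      push_cast at h3
      exact h3.symm
    set P : ℝ := ∏ v : InfinitePlace N, Per.perAt (E N) v with hPdef
    set R : ℝ := (L 1).re * Real.sqrt |(discr N : ℝ)| / P with hR
    have hRP : L 1 * ((Real.sqrt |(discr N : ℝ)| : ℝ) : ℂ) = (R : ℂ) * ((P : ℝ) : ℂ) := by
      rw [← Complex.ofReal_mul, hR, div_mul_cancel₀ _ hP.ne']
      push_cast
      rw [← hre]
    have hP2 : P = Real.sqrt 3 ^ (r1 + r2) * ‖Om‖ ^ (r1 + 2 * r2) := by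
      rw [hPdef, Per.prod_perAt, hcard, hrk]
    obtain ⟨r, hr⟩ := ar_real r1 r2 κ (dt σ bb) q (discr N) (discr_ne_zero N) hsgn hdq R (by
      rw [← hP2, ← hRP, hLv, hrk, hfrN])
    refine ⟨L, r, hL, hgs, ?_⟩
    rw [hRP, ← hr]
    push_cast
    rfl

end Pool.Agent.Lib.MP_1a91b9_ntT.Rg
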