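import Pool.Agent.Lib.MP_1a91b9_ntT.Rq.Act

/-!
# Rg-ACT: the action of the automorphisms on the values of `E₁` at all torsion points

The same as `Rq.Act` without the restriction to torsion points of odd order.
-/

set_option autoImplicit false

namespace Pool.Agent.Lib.MP_1a91b9_ntT.Rg

open NumberField S3 Filter Topology
open Pool.Agent.Lib.MP_1a91b9_ntT.Rq (ev Act Fix Rel X_neg Y_neg X_zt Y_zt Y_add ev_add ev_neg ev_coe
  ev_zt Y_ne rel_exists rel_period rel_neg rel_zt dupl third_notMem rel_third embK_dvd)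

noncomputable section

theorem two_mem_of_Y {z : ℂ} (h : Y z = 0) : 2 * z ∈ PP.lattice := by
  by_contra hz
  exact Y_ne hz h

theorem Y_half {z : ℂ} (h : 2 * z ∈ PP.lattice) : Y z = 0 := by rw [Y, Q_half h, zero_div]

theorem ev_half {z : ℂ} (h : 2 * z ∈ PP.lattice) : ev z = 0 := by
  have e : z = -z + 2 * z := by ring
  have h1 : ev z = -ev z := by
    conv_lhs => rw [e]
    rw [ev_add h, ev_neg]
  have h2 : 2 * ev z = 0 := by linear_combination h1
  simpa using h2

theorem sq {u v : ℂ} (hu : u ∉ PP.lattice) (hv : v ∉ PP.lattice) (huv : u + v ∉ PP.lattice) :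
    (ev (u + v) - ev u - ev v) ^ 2 = X u + X v + X (u + v) := Rq.sq hu hv huv

theorem continuousAt_X {z : ℂ} (hz : z ∉ PP.lattice) : ContinuousAt X z :=
  (continuousAt_P hz).div_const _

theorem continuousAt_Y {z : ℂ} (hz : z ∉ PP.lattice) : ContinuousAt Y z :=
  (differentiableAt_Q hz).continuousAt.div_const _

theorem continuousAt_ev {z : ℂ} (hz : z ∉ PP.lattice) : ContinuousAt ev z :=
  (continuousAt_E1 hz).div_const _

/-- The slope formula when the second point is not of order two. -/
theorem slope_one {u v : ℂ} (hu : u ∉ PP.lattice) (hv : 2 * v ∉ PP.lattice)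
    (h1 : u - v ∉ PP.lattice) (h2 : u + v ∉ PP.lattice) :
    (X u - X v) * (2 * (ev (u + v) - ev u - ev v)) = Y u - Y v := by
  have hc : ContinuousAt (fun w => (X w - X v) * (2 * (ev (w + v) - ev w - ev v)) - (Y w - Y v)) u := by
    have c1 : ContinuousAt (fun w => ev (w + v)) u :=
      ContinuousAt.comp (g := ev) (f := fun w => w + v) (continuousAt_ev h2) (by fun_prop)
    exact (((continuousAt_X hu).sub continuousAt_const).mul (continuousAt_const.mul
      ((c1.sub (continuousAt_ev hu)).sub continuousAt_const))).sub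
      ((continuousAt_Y hu).sub continuousAt_const)
  have h3 : ∀ᶠ w in 𝓝[≠] u,
      (X w - X v) * (2 * (ev (w + v) - ev w - ev v)) - (Y w - Y v) = 0 := by
    filter_upwards [eventually_mul_notMem two_ne_zero u, eventually_add_notMem (-v) u,
      eventually_add_notMem v u] with w hw1 hw2 hw3
    rw [Rq.slope hw1 hv (by rwa [sub_eq_add_neg]) hw3, sub_self]
  have h4 := tendsto_nhds_unique (hc.tendsto.mono_left nhdsWithin_le_nhds)
    ((tendsto_const_nhds (x := (0 : ℂ))).congr' (h3.mono fun w hw => hw.symm))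
  exact sub_eq_zero.1 h4

/-- The slope formula. -/
theorem slope {u v : ℂ} (hu : u ∉ PP.lattice) (hv : v ∉ PP.lattice)
    (h1 : u - v ∉ PP.lattice) (h2 : u + v ∉ PP.lattice) :
    (X u - X v) * (2 * (ev (u + v) - ev u - ev v)) = Y u - Y v := by
  have hc : ContinuousAt (fun w => (X u - X w) * (2 * (ev (u + w) - ev u - ev w)) - (Y u - Y w)) v := by
    have c1 : ContinuousAt (fun w => ev (u + w)) v :=
      ContinuousAt.comp (g := ev) (f := fun w => u + w) (continuousAt_ev h2) (by fun_prop)
    exact ((continuousAt_const.sub (continuousAt_X hv)).mul (continuousAt_const.mul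
      ((c1.sub continuousAt_const).sub (continuousAt_ev hv)))).sub
      (continuousAt_const.sub (continuousAt_Y hv))
  have h3 : ∀ᶠ w in 𝓝[≠] v,
      (X u - X w) * (2 * (ev (u + w) - ev u - ev w)) - (Y u - Y w) = 0 := by
    filter_upwards [eventually_mul_notMem two_ne_zero v, eventually_add_notMem (-u) v,
      eventually_add_notMem u v] with w hw1 hw2 hw3
    have h4 : u - w ∉ PP.lattice := fun h => hw2 (by
      have := neg_mem h
      rwa [neg_sub, sub_eq_add_neg] at this)
    rw [slope_one hu hw1 h4 (by rwa [add_comm]), sub_self]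
  have h4 := tendsto_nhds_unique (hc.tendsto.mono_left nhdsWithin_le_nhds)
    ((tendsto_const_nhds (x := (0 : ℂ))).congr' (h3.mono fun w hw => hw.symm))
  exact sub_eq_zero.1 h4

theorem third {u v : ℂ} (hu : u ∉ PP.lattice) (hv : v ∉ PP.lattice)
    (huv : u + v ∉ PP.lattice) :
    Y (u + v) = -Y u + 2 * (ev (u + v) - ev u - ev v) * (X u - X (u + v)) := by
  by_cases h : 2 * u + v ∈ PP.lattice
  · have e : u + v = -u + (2 * u + v) := by ring
    have h1 : X (u + v) = X u := by rw [e, X_add h, X_neg]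
    have h2 : Y (u + v) = -Y u := by rw [e, Y_add h, Y_neg]
    rw [h1, h2, sub_self, mul_zero, add_zero]
  · have h3 : -(u + v) ∉ PP.lattice := fun hh => huv (neg_mem_iff.1 hh)
    have h4 : u - -(u + v) ∉ PP.lattice := by
      have e : u - -(u + v) = 2 * u + v := by ring
      rwa [e]
    have h5 : u + -(u + v) ∉ PP.lattice := by
      have e : u + -(u + v) = -v := by ring
      rw [e]
      exact fun hh => hv (neg_mem_iff.1 hh)
    have h6 := slope hu h3 h4 h5
    have e : u + -(u + v) = -v := by ring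
    rw [e, X_neg, Y_neg, ev_neg, ev_neg] at h6
    linear_combination -h6

/-- The function `X` determines a point up to sign. -/
theorem X_inj {w z : ℂ} (hw : w ∉ PP.lattice) (hz : z ∉ PP.lattice) (h : X z = X w) :
    z - w ∈ PP.lattice ∨ z + w ∈ PP.lattice := by
  have hP : PP.weierstrassP z = PP.weierstrassP w := by
    rw [X, X] at h
    exact (div_left_inj' (pow_ne_zero 2 Om_ne_zero)).1 h
  by_cases h1 : 2 * w ∈ PP.lattice
  · by_cases h2 : 2 * z ∈ PP.lattice
    · by_contra hc
      push Not at hc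
      obtain ⟨hc1, hc2⟩ := hc
      have h3 : 2 * (z + w) ∈ PP.lattice := by
        rw [mul_add]
        exact add_mem h2 h1
      have h4 := sq hz hw hc2
      rw [ev_half h2, ev_half h1, ev_half h3, h] at h4
      have h5 : X (z + w) = -2 * X w := by linear_combination -h4
      have h6 := Y_sq hw
      have h7 := Y_sq hc2
      rw [Y_half h1] at h6
      rw [Y_half h3, h5] at h7
      have h8 : (9 : ℂ) = 0 := by linear_combination -h7 - 8 * h6
      norm_num at h8
    · rcases Per.P_inj h2 hw hP.symm with h3 | h3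
      · left
        have := neg_mem h3
        rwa [neg_sub] at this
      · right
        rwa [add_comm]
  · exact Per.P_inj h1 hz hP

/-- Uniqueness. -/
theorem uniq {w w' : ℂ} (hw : w ∉ PP.lattice) (hw' : w' ∉ PP.lattice) (hX : X w' = X w)
    (hY : Y w' = Y w) : w' - w ∈ PP.lattice := by
  rcases X_inj hw hw' hX with h | h
  · exact h
  · have e : w' = -w + (w' + w) := by ring
    have h1 : Y w' = -Y w := by
      conv_lhs => rw [e]
      rw [Y_add h, Y_neg]
    rw [h1] at hY
    have h2 : Y w = 0 := by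
      have h3 : 2 * Y w = 0 := by linear_combination -hY
      simpa using h3
    have h3 := two_mem_of_Y h2
    have e2 : w' - w = (w' + w) - 2 * w := by ring
    rw [e2]
    exact sub_mem h h3

/-- Opposite points. -/
theorem uniq_neg {w w' : ℂ} (hw : w ∉ PP.lattice) (hw' : w' ∉ PP.lattice) (hX : X w' = X w)
    (hY : Y w' = -Y w) : w' + w ∈ PP.lattice := by
  have h := uniq (w := -w) (fun h => hw (neg_mem_iff.1 h)) hw' (by rw [hX, X_neg])
    (by rw [hY, Y_neg])
  rwa [sub_neg_eq_add] at h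

/-- Additivity. -/
theorem rel_add {τ : ℂ ≃+* ℂ} {u w u' w' : ℂ} (h : Rel τ u w) (h' : Rel τ u' w') :
    Rel τ (u + u') (w + w') ∧
      τ (ev (u + u') - ev u - ev u') = ev (w + w') - ev w - ev w' := by
  rcases h with ⟨h1, h2⟩ | ⟨h1, h2, h3, h4⟩
  · refine ⟨?_, ?_⟩
    · have := rel_period h' h1 h2
      rwa [add_comm u' u, add_comm w' w] at this
    · rw [add_comm u u', add_comm w w', ev_add h1, ev_add h2, ev_coe h1, ev_coe h2, sub_zero,
        sub_zero, sub_self, sub_self, map_zero]
  rcases h' with ⟨h1', h2'⟩ | ⟨h1', h2', h3', h4'⟩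
  · refine ⟨rel_period (Or.inr ⟨h1, h2, h3, h4⟩) h1' h2', ?_⟩
    rw [ev_add h1', ev_add h2', ev_coe h1', ev_coe h2', sub_zero, sub_zero, sub_self, sub_self,
      map_zero]
  by_cases hs : u + u' ∈ PP.lattice
  · have e : u' = -u + (u + u') := by ring
    have a1 : X u' = X u := by rw [e, X_add hs, X_neg]
    have a2 : Y u' = -Y u := by rw [e, Y_add hs, Y_neg]
    have a3 : ev u' = -ev u := by rw [e, ev_add hs, ev_neg]
    have hsw : w' + w ∈ PP.lattice :=
      uniq_neg h2 h2' (by rw [h3', a1, h3]) (by rw [h4', a2, map_neg, h4])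
    have e' : w' = -w + (w' + w) := by ring
    have a3' : ev w' = -ev w := by
      conv_lhs => rw [e']
      rw [ev_add hsw, ev_neg]
    rw [add_comm w' w] at hsw
    refine ⟨Or.inl ⟨hs, hsw⟩, ?_⟩
    rw [ev_coe hs, ev_coe hsw, a3, a3']
    simp
  have hsw : w + w' ∉ PP.lattice := by
    intro hsw
    have e' : w' = -w + (w + w') := by ring
    have b1 : X w' = X w := by rw [e', X_add hsw, X_neg]
    have b2 : Y w' = -Y w := by rw [e', Y_add hsw, Y_neg]
    have b3 : X u' = X u := τ.injective (by rw [← h3', ← h3, b1])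
    have b4 : Y u' = -Y u := τ.injective (by rw [← h4', b2, h4, map_neg])
    have := uniq_neg h1 h1' b3 b4
    rw [add_comm] at this
    exact hs this
  -- the slopes correspond
  have hl : τ (ev (u + u') - ev u - ev u') = ev (w + w') - ev w - ev w' := by
    by_cases hd : u' - u ∈ PP.lattice
    · have e : u' = u + (u' - u) := by ring
      have c1 : X u' = X u := by rw [e, X_add hd]
      have c2 : Y u' = Y u := by rw [e, Y_add hd]
      have c3 : ev u' = ev u := by rw [e, ev_add hd]
      have hdw : w' - w ∈ PP.lattice :=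
        uniq h2 h2' (by rw [h3', c1, h3]) (by rw [h4', c2, h4])
      have hu : 2 * u ∉ PP.lattice := fun hh => hs (by
        have e4 : u + u' = 2 * u + (u' - u) := by ring
        rw [e4]
        exact add_mem hh hd)
      have hw : 2 * w ∉ PP.lattice := fun hh => hsw (by
        have e4 : w + w' = 2 * w + (w' - w) := by ring
        rw [e4]
        exact add_mem hh hdw)
      have e' : w' = w + (w' - w) := by ring
      have c3' : ev w' = ev w := by
        conv_lhs => rw [e']
        rw [ev_add hdw]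
      have c4 : ev (u + u') = ev (2 * u) := by
        have e2 : u + u' = 2 * u + (u' - u) := by ring
        rw [e2, ev_add hd]
      have c4' : ev (w + w') = ev (2 * w) := by
        have e2 : w + w' = 2 * w + (w' - w) := by ring
        rw [e2, ev_add hdw]
      have d1 := congrArg τ (dupl hu)
      have d2 := dupl hw
      simp only [map_mul, map_pow, map_ofNat] at d1
      rw [← h4, ← h3] at d1
      rw [c3, c4, c3', c4']
      apply mul_right_cancel₀ (Y_ne hw)
      have e3 : ev (2 * u) - ev u - ev u = ev (2 * u) - 2 * ev u := by ring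
      rw [e3, d1]
      linear_combination -d2
    · have hd' : u - u' ∉ PP.lattice := fun hh => hd (by have := neg_mem hh; rwa [neg_sub] at this)
      have hXne : X w ≠ X w' := by
        intro hX
        have hXu : X u = X u' := τ.injective (by rw [← h3, ← h3', hX])
        rcases X_inj h1' h1 hXu with hh | hh
        · exact hd' hh
        · exact hs hh
      have hdw : w - w' ∉ PP.lattice := by
        intro hh
        apply hXne
        have e' : w = w' + (w - w') := by ring
        conv_lhs => rw [e']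
        rw [X_add hh]
      have d1 := congrArg τ (slope h1 h1' hd' hs)
      have d2 := slope h2 h2' hdw hsw
      rw [map_mul, map_mul, map_sub, map_sub τ (Y u), ← h3, ← h3', ← h4, ← h4', map_ofNat] at d1
      have d3 : (X w - X w') * (2 * (τ (ev (u + u') - ev u - ev u'))) =
          (X w - X w') * (2 * (ev (w + w') - ev w - ev w')) := by rw [d1, d2]
      have d4 := mul_left_cancel₀ (sub_ne_zero.2 hXne) d3
      exact mul_left_cancel₀ two_ne_zero d4
  have hXs : X (w + w') = τ (X (u + u')) := by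
    have d1 := congrArg τ (sq h1 h1' hs)
    have d2 := sq h2 h2' hsw
    rw [map_pow, hl, d2, map_add, map_add, ← h3, ← h3'] at d1
    linear_combination d1
  refine ⟨Or.inr ⟨hs, hsw, hXs, ?_⟩, hl⟩
  have d1 := congrArg τ (third h1 h1' hs)
  rw [third h2 h2' hsw, ← hl, hXs, h3, h4, d1]
  simp only [map_add, map_neg, map_mul, map_sub, map_ofNat]

/-! ### Torsion points -/

/-- The group of the `l` in the lattice with `Rel τ (l / m) (l w)`. -/
def relSub (τ : ℂ ≃+* ℂ) (m : ℕ) (hm : 0 < m) (w : ℂ) : AddSubgroup ℂ where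
  carrier := {l | l ∈ PP.lattice ∧ Rel τ (l / m) (l * w)}
  zero_mem' := by
    refine ⟨zero_mem _, Or.inl ⟨?_, ?_⟩⟩
    · rw [zero_div]
      exact zero_mem _
    · rw [zero_mul]
      exact zero_mem _
  add_mem' := by
    rintro a b ⟨ha, ha'⟩ ⟨hb, hb'⟩
    refine ⟨add_mem ha hb, ?_⟩
    rw [add_div, add_mul]
    exact (rel_add ha' hb').1
  neg_mem' := by
    rintro a ⟨ha, ha'⟩
    refine ⟨neg_mem ha, ?_⟩
    rw [neg_div, neg_mul]
    exact rel_neg ha'

theorem relSub_top {τ : ℂ ≃+* ℂ} (hτ : Fix τ) {m : ℕ} (hm : 0 < m) {w : ℂ}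
    (h : Rel τ (1 / m) w) {l : ℂ} (hl : l ∈ PP.lattice) : Rel τ (l / m) (l * w) := by
  have h1 : (1 : ℂ) ∈ relSub τ m hm w := ⟨one_mem, by rwa [one_mul]⟩
  have h2 : zt ∈ relSub τ m hm w := ⟨zt_mem, by
    have := rel_zt hτ h
    rwa [mul_one_div] at this⟩
  obtain ⟨a, b, rfl⟩ := mem_PP.1 hl
  have h3 : (a : ℂ) + b * zt ∈ relSub τ m hm w := by
    have e : (a : ℂ) + b * zt = a • (1 : ℂ) + b • zt := by
      rw [zsmul_eq_mul, zsmul_eq_mul, mul_one]
    rw [e]
    exact add_mem (AddSubgroup.zsmul_mem _ h1 a) (AddSubgroup.zsmul_mem _ h2 b)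
  exact h3.2

/-- The additive defect. -/
def defect {τ : ℂ ≃+* ℂ} (hτ : Fix τ) {m : ℕ} (hm : 0 < m) {w : ℂ} (h : Rel τ (1 / m) w) :
    PP.lattice →+ ℂ where
  toFun l := τ (ev ((l : ℂ) / m)) - ev ((l : ℂ) * w)
  map_zero' := by
    have h0 : ((0 : PP.lattice) : ℂ) = 0 := rfl
    rw [h0, zero_div, zero_mul, ev_coe (zero_mem _), map_zero, sub_zero]
  map_add' a b := by
    have e : ((a + b : PP.lattice) : ℂ) = (a : ℂ) + b := rfl
    have h1 := (rel_add (relSub_top hτ hm h a.2) (relSub_top hτ hm h b.2)).2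
    rw [← add_div, ← add_mul] at h1
    rw [e]
    rw [map_sub, map_sub] at h1
    linear_combination h1

theorem defect_zero {τ : ℂ ≃+* ℂ} (hτ : Fix τ) {m : ℕ} (hm : 0 < m) {w : ℂ}
    (h : Rel τ (1 / m) w) (l : PP.lattice) : τ (ev ((l : ℂ) / m)) = ev ((l : ℂ) * w) := by
  have hm0 : (m : ℂ) ≠ 0 := by
    exact_mod_cast hm.ne'
  have h1 : defect hτ hm h (m • l) = m • defect hτ hm h l := map_nsmul _ _ _
  have h2 : defect hτ hm h (m • l) = 0 := by
    show τ (ev (((m • l : PP.lattice) : ℂ) / m)) - ev (((m • l : PP.lattice) : ℂ) * w) = 0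
    have e : ((m • l : PP.lattice) : ℂ) = (m : ℂ) * l := by
      rw [← nsmul_eq_mul]
      rfl
    have e1 : (m : ℂ) * l / m = l := by field_simp
    have hr := relSub_top hτ hm h (mul_mem (nat_mem m) l.2)
    rw [e1] at hr
    rw [e, e1, ev_coe l.2, map_zero]
    rcases hr with ⟨-, hr⟩ | ⟨hr, -⟩
    · rw [ev_coe hr, sub_zero]
    · exact absurd l.2 hr
  rw [h2, nsmul_eq_mul] at h1
  have h3 : defect hτ hm h l = 0 := (mul_eq_zero.1 h1.symm).resolve_left hm0
  exact sub_eq_zero.1 h3

theorem rel_unique {τ : ℂ ≃+* ℂ} {u w w' : ℂ} (h : Rel τ u w) (h' : Rel τ u w') :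
    w' - w ∈ PP.lattice := by
  rcases h with ⟨h1, h2⟩ | ⟨h1, h2, h3, h4⟩
  · rcases h' with ⟨_, h2'⟩ | ⟨h1', _⟩
    · exact sub_mem h2' h2
    · exact absurd h1 h1'
  · rcases h' with ⟨h1', _⟩ | ⟨_, h2', h3', h4'⟩
    · exact absurd h1' h1
    · exact uniq h2 h2' (by rw [h3', h3]) (by rw [h4', h4])

theorem exists_act {τ : ℂ ≃+* ℂ} (hτ : Fix τ) (M : ℕ) (hM : 0 < M) (h3 : 3 ∣ M) :
    ∃ χ : 𝓞 K, (3 : 𝓞 K) ∣ χ - 1 ∧ IsCoprime χ (M : 𝓞 K) ∧ Act τ M χ := by
  have hM0 : (M : ℂ) ≠ 0 := by
    exact_mod_cast hM.ne'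
  obtain ⟨w, hw⟩ : ∃ w, Rel τ (1 / M) w := by
    by_cases h : (1 / M : ℂ) ∈ PP.lattice
    · exact ⟨0, Or.inl ⟨h, zero_mem _⟩⟩
    · exact rel_exists τ h
  have hMw : (M : ℂ) * w ∈ PP.lattice := by
    have h1 := relSub_top hτ hM hw (nat_mem M)
    rw [div_self hM0] at h1
    rcases h1 with ⟨-, h1⟩ | ⟨h1, -⟩
    · exact h1
    · exact absurd one_mem h1
  obtain ⟨χ, hχ⟩ := mem_PP_iff.1 hMw
  have hw' : w = embK (χ : K) / M := by
    rw [hχ]
    field_simp
  have hrel : ∀ a : 𝓞 K, Rel τ (embK (a : K) / M) (embK (χ : K) * embK (a : K) / M) := by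
    intro a
    have h1 := relSub_top hτ hM hw (embK_mem a)
    rw [hw'] at h1
    have e : embK (a : K) * (embK (χ : K) / M) = embK (χ : K) * embK (a : K) / M := by ring
    rwa [e] at h1
  refine ⟨χ, ?_, ?_, ?_⟩
  · obtain ⟨k, rfl⟩ := h3
    have hk0 : (k : ℂ) ≠ 0 := by
      intro h
      apply hM0
      push_cast
      rw [h, mul_zero]
    have h1 := hrel (k : 𝓞 K)
    have e1 : embK (((k : 𝓞 K) : 𝓞 K) : K) / ((3 * k : ℕ) : ℂ) = 1 / 3 := by
      have : (((k : 𝓞 K) : 𝓞 K) : K) = (k : K) := by push_cast; rfl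
      rw [this, map_natCast]
      push_cast
      field_simp
    have e2 : embK (χ : K) * embK (((k : 𝓞 K) : 𝓞 K) : K) / ((3 * k : ℕ) : ℂ) =
        embK (χ : K) * (1 / 3) := by
      rw [mul_div_assoc, e1]
    rw [e1, e2] at h1
    have h2 := rel_unique (rel_third hτ) h1
    refine embK_dvd (M := 3) (by norm_num) ?_
    have e3 : embK ((χ - 1 : 𝓞 K) : K) / ((3 : ℕ) : ℂ) = embK (χ : K) * (1 / 3) - 1 / 3 := by
      have : ((χ - 1 : 𝓞 K) : K) = (χ : K) - 1 := by push_cast; rfl
      rw [this, map_sub, map_one]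
      push_cast
      ring
    rw [e3]
    exact h2
  · -- multiplication by `χ` is injective modulo `M`
    have hinj : ∀ a : 𝓞 K, (M : 𝓞 K) ∣ χ * a → (M : 𝓞 K) ∣ a := by
      rintro a ⟨y, hy⟩
      have h1 : embK (χ : K) * embK (a : K) / M ∈ PP.lattice := by
        have e : embK (χ : K) * embK (a : K) = M * embK (y : K) := by
          have h2 := congrArg (fun x : 𝓞 K => embK (x : K)) hy
          have e1 : ((χ * a : 𝓞 K) : K) = (χ : K) * (a : K) := by push_cast; rfl
          have e2 : (((M : 𝓞 K) * y : 𝓞 K) : K) = (M : K) * (y : K) := by push_cast; rfl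
          simp only [e1, e2, map_mul, map_natCast] at h2
          exact h2
        rw [e, mul_div_cancel_left₀ _ hM0]
        exact embK_mem y
      rcases hrel a with ⟨h2, -⟩ | ⟨-, h2, -⟩
      · exact embK_dvd hM h2
      · exact absurd h1 h2
    have hfin : Finite (𝓞 K ⧸ Ideal.span {(M : 𝓞 K)}) :=
      Ideal.finiteQuotientOfFreeOfNeBot _ (by
        rw [Ne, Ideal.span_singleton_eq_bot]
        intro h
        have : (M : 𝓞 K) ≠ 0 := by
          exact_mod_cast hM.ne'
        exact this h)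
    have hinj2 : Function.Injective
        (fun x : 𝓞 K ⧸ Ideal.span {(M : 𝓞 K)} => Ideal.Quotient.mk _ χ * x) := by
      intro x y hxy
      obtain ⟨a, rfl⟩ := Ideal.Quotient.mk_surjective x
      obtain ⟨b, rfl⟩ := Ideal.Quotient.mk_surjective y
      simp only at hxy
      rw [← map_mul, ← map_mul, Ideal.Quotient.eq, Ideal.mem_span_singleton, ← mul_sub] at hxy
      rw [Ideal.Quotient.eq, Ideal.mem_span_singleton]
      exact hinj _ hxy
    obtain ⟨x, hx⟩ := (Finite.injective_iff_surjective.1 hinj2) 1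
    obtain ⟨a, rfl⟩ := Ideal.Quotient.mk_surjective x
    simp only at hx
    rw [← map_mul, ← map_one (Ideal.Quotient.mk _), Ideal.Quotient.eq,
      Ideal.mem_span_singleton] at hx
    obtain ⟨y, hy⟩ := hx
    exact ⟨a, -y, by linear_combination hy⟩
  · intro a
    have h1 := defect_zero hτ hM hw ⟨embK (a : K), embK_mem a⟩
    rw [hw'] at h1
    have e : embK (a : K) * (embK (χ : K) / M) = embK (χ : K) * embK (a : K) / M := by ring
    rw [← e]
    exact h1

end

end Pool.Agent.Lib.MP_1a91b9_ntT.Rg
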