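import Pool.Agent.Lib.MP_1a91b9_ntT.Rg.Act
import Pool.Agent.Lib.MP_1a91b9_ntT.Rq.Ix
import Pool.Agent.Lib.MP_1a91b9_ntG.Psi

/-!
# Rg: normalisations of the values of `E₁` for a modulus `f`
-/

set_option autoImplicit false

namespace Pool.Agent.Lib.MP_1a91b9_ntT.Rg

open NumberField S3 Pool.Agent.Lib.MP_1a91b9_ntG
open Pool.Agent.Lib.MP_1a91b9_ntT.Rq (ev Act Fix)

/-- `κ` is a normalisation of the values of `E₁` at the torsion points for the modulus `f`: the
automorphisms of `ℂ` over `K` act on the normalised values at the `M`-torsion points by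
multiplication by a number congruent to `1` modulo `f`. -/
structure Kap (f : 𝓞 K) (κ : ℂ) : Prop where
  ne : κ ≠ 0
  act : ∀ τ : ℂ ≃+* ℂ, Fix τ → ∀ M : ℕ, 0 < M → ∃ χ : 𝓞 K, f ∣ χ - 1 ∧ IsCoprime χ (M : 𝓞 K) ∧
    ∀ a : 𝓞 K, τ (E1 (embK (a : K) / M) / κ) = E1 (embK (χ : K) * embK (a : K) / M) / κ

theorem kap_three : Kap 3 Om where
  ne := Om_ne_zero
  act := by
    intro τ hτ M hM
    obtain ⟨χ, h1, h2, h3⟩ := exists_act hτ (3 * M) (by positivity) (dvd_mul_right 3 M)
    refine ⟨χ, h1, ?_, fun a => ?_⟩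
    · push_cast at h2
      exact IsCoprime.of_mul_right_right h2
    · have h4 := h3 (3 * a)
      have hM0 : (M : ℂ) ≠ 0 := by exact_mod_cast hM.ne'
      have e1 : embK ((3 * a : 𝓞 K) : K) = 3 * embK (a : K) := by
        have : ((3 * a : 𝓞 K) : K) = 3 * (a : K) := by
          rw [Rq.ix_mul, show ((3 : 𝓞 K) : K) = 3 from map_ofNat (algebraMap (𝓞 K) K) 3]
        rw [this, map_mul, map_ofNat]
      have e2 : embK ((3 * a : 𝓞 K) : K) / ((3 * M : ℕ) : ℂ) = embK (a : K) / M := by
        rw [e1]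
        push_cast
        field_simp
      have e3 : embK (χ : K) * embK ((3 * a : 𝓞 K) : K) / ((3 * M : ℕ) : ℂ) =
          embK (χ : K) * embK (a : K) / M := by
        rw [mul_div_assoc, e2, mul_div_assoc]
      rw [e2, e3] at h4
      exact h4

/-- The six units. -/
theorem unit_cases (u : (𝓞 K)ˣ) : (u : K) = 1 ∨ (u : K) = -1 ∨ (u : K) = om ∨
    (u : K) = -om ∨ (u : K) = om ^ 2 ∨ (u : K) = -om ^ 2 := by
  have h := IsCyclotomicExtension.Rat.Three.Units.mem om_spec u
  simp only [List.mem_cons, List.not_mem_nil, or_false] at h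
  rcases h with h | h | h | h | h | h
  · exact Or.inl (by rw [h]; rfl)
  · exact Or.inr (Or.inl (by rw [h]; simp))
  · exact Or.inr (Or.inr (Or.inl (by rw [h]; rfl)))
  · exact Or.inr (Or.inr (Or.inr (Or.inl (by rw [h]; first | (simp; done) | (simp; rfl)))))
  · exact Or.inr (Or.inr (Or.inr (Or.inr (Or.inl (by rw [h]; first | (simp; done) | (simp; rfl))))))
  · exact Or.inr (Or.inr (Or.inr (Or.inr (Or.inr (by rw [h]; first | (simp; done) | (simp; rfl))))))

theorem E1_unit (u : (𝓞 K)ˣ) (z : ℂ) : embK (u : K) * E1 (embK (u : K) * z) = E1 z := by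
  have h3 : zt ^ 3 = 1 := zt_cube
  have h2 : ∀ z, E1 (zt ^ 2 * z) = zt * E1 z := by
    intro z
    have e : zt ^ 2 * z = zt * (zt * z) := by ring
    rw [e, E1_zt, E1_zt]
    linear_combination (zt * E1 z) * h3
  rcases unit_cases u with h | h | h | h | h | h <;> rw [h]
  · rw [map_one, one_mul, one_mul]
  · rw [map_neg, map_one, neg_one_mul, neg_one_mul, E1_neg, neg_neg]
  · rw [embK_om, E1_zt]
    linear_combination E1 z * h3
  · rw [map_neg, embK_om, neg_mul zt z, E1_neg, E1_zt]
    linear_combination E1 z * h3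
  · rw [map_pow, embK_om, h2]
    linear_combination E1 z * h3
  · rw [map_neg, map_pow, embK_om, neg_mul (zt ^ 2) z, E1_neg, h2]
    linear_combination E1 z * h3

theorem kap_mod (f : 𝓞 K) [hf : IsMod f] (h0 : E1 (1 / embK (f : K)) ≠ 0) :
    Kap f (E1 (1 / embK (f : K))) where
  ne := h0
  act := by
    intro τ hτ M hM
    obtain ⟨N, hN⟩ : ∃ N : ℕ, N = Ideal.absNorm (Ideal.span {f}) := ⟨_, rfl⟩
    have hf0 : embK (f : K) ≠ 0 := by
      intro h
      have h1 : (f : K) = 0 := (map_eq_zero embK).1 h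
      exact hf.ne (by exact_mod_cast h1)
    have hN0 : 0 < N := by
      rw [hN, Nat.pos_iff_ne_zero, Ne, Ideal.absNorm_eq_zero_iff, Ideal.span_singleton_eq_bot]
      exact hf.ne
    obtain ⟨f', hf'⟩ : f ∣ (N : 𝓞 K) := by
      rw [← Ideal.mem_span_singleton, hN]
      exact Ideal.absNorm_mem _
    obtain ⟨χ₀, -, h2, h3⟩ := exists_act hτ (3 * (N * M)) (by positivity)
      (dvd_mul_right 3 (N * M))
    have hcf : IsCoprime χ₀ f := by
      have h4 : IsCoprime χ₀ ((N : 𝓞 K)) := by
        push_cast at h2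
        exact IsCoprime.of_mul_right_left (IsCoprime.of_mul_right_right h2)
      rw [hf'] at h4
      exact IsCoprime.of_mul_right_left h4
    obtain ⟨u, hu⟩ := hf.surj χ₀ hcf
    have hM0 : (M : ℂ) ≠ 0 := by exact_mod_cast hM.ne'
    have hNC : (N : ℂ) ≠ 0 := by exact_mod_cast hN0.ne'
    have hmul : ∀ a b : 𝓞 K, ((a * b : 𝓞 K) : K) = (a : K) * (b : K) := fun a b =>
      map_mul (algebraMap (𝓞 K) K) a b
    -- the action of `τ` on `ev`, in terms of `χ = u χ₀`
    have hact : ∀ z : ℂ, ev (embK (χ₀ : K) * z) =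
        embK (u : K) * ev (embK ((u * χ₀ : 𝓞 K) : K) * z) := by
      intro z
      rw [hmul, map_mul, ev, ev, mul_assoc (embK ((u : 𝓞 K) : K)), ← mul_div_assoc, E1_unit]
    have hM3 : ((3 * (N * M) : ℕ) : ℂ) ≠ 0 := by
      push_cast
      exact mul_ne_zero three_ne_zero (mul_ne_zero hNC hM0)
    have hgen : ∀ a : 𝓞 K, τ (ev (embK (a : K) / ((3 * (N * M) : ℕ) : ℂ))) =
        embK (u : K) * ev (embK ((u * χ₀ : 𝓞 K) : K) * (embK (a : K) / ((3 * (N * M) : ℕ) : ℂ))) := by
      intro a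
      rw [h3 a, mul_div_assoc, hact]
    have hu0 : embK (u : K) ≠ 0 := by
      intro h
      have h1 : ((u : 𝓞 K) : K) = 0 := (map_eq_zero embK).1 h
      exact u.ne_zero (by exact_mod_cast h1)
    -- at `1 / f`
    have hone : τ (ev (1 / embK (f : K))) = embK (u : K) * ev (1 / embK (f : K)) := by
      have h4 := hgen (3 * M * f')
      have hff : embK (f : K) * embK (f' : K) = N := by
        rw [← map_mul, ← hmul, ← hf']
        have : (((N : 𝓞 K) : 𝓞 K) : K) = (N : K) := map_natCast (algebraMap (𝓞 K) K) N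
        rw [this, map_natCast]
      have e1 : embK ((3 * M * f' : 𝓞 K) : K) / ((3 * (N * M) : ℕ) : ℂ) = 1 / embK (f : K) := by
        have : ((3 * M * f' : 𝓞 K) : K) = 3 * M * (f' : K) := by
          rw [hmul, hmul]
          have h5 : ((3 : 𝓞 K) : K) = 3 := map_ofNat (algebraMap (𝓞 K) K) 3
          have h6 : (((M : 𝓞 K) : 𝓞 K) : K) = (M : K) := map_natCast (algebraMap (𝓞 K) K) M
          rw [h5, h6]
        rw [this, map_mul, map_mul, map_ofNat, map_natCast]
        push_cast
        rw [← hff]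
        have hf1 : embK (f' : K) ≠ 0 := by
          intro h
          rw [h, mul_zero] at hff
          exact hNC hff.symm
        field_simp
      rw [e1] at h4
      rw [h4]
      congr 1
      obtain ⟨c, hc⟩ := hu
      have e2 : embK ((u * χ₀ : 𝓞 K) : K) * (1 / embK (f : K)) = 1 / embK (f : K) + embK (c : K) := by
        have h5 : (u * χ₀ : 𝓞 K) = 1 + f * c := by linear_combination hc
        have h6 : ((u * χ₀ : 𝓞 K) : K) = 1 + (f : K) * (c : K) := by
          rw [h5, Rq.ix_add, hmul, show ((1 : 𝓞 K) : K) = 1 from map_one (algebraMap (𝓞 K) K)]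
        rw [h6, map_add, map_one, map_mul]
        field_simp
      rw [e2, Rq.ev_add (embK_mem c)]
    refine ⟨u * χ₀, hu, ?_, fun a => ?_⟩
    · have h4 : IsCoprime χ₀ ((M : 𝓞 K)) := by
        push_cast at h2
        exact IsCoprime.of_mul_right_right (IsCoprime.of_mul_right_right h2)
      exact (isCoprime_mul_unit_left_left u.isUnit _ _).2 h4
    · have h4 := hgen (3 * N * a)
      have e1 : embK ((3 * N * a : 𝓞 K) : K) / ((3 * (N * M) : ℕ) : ℂ) = embK (a : K) / M := by
        have : ((3 * N * a : 𝓞 K) : K) = 3 * N * (a : K) := by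
          rw [hmul, hmul]
          have h5 : ((3 : 𝓞 K) : K) = 3 := map_ofNat (algebraMap (𝓞 K) K) 3
          have h6 : (((N : 𝓞 K) : 𝓞 K) : K) = (N : K) := map_natCast (algebraMap (𝓞 K) K) N
          rw [h5, h6]
        rw [this, map_mul, map_mul, map_ofNat, map_natCast]
        push_cast
        field_simp
      rw [e1] at h4
      have hev : ∀ z : ℂ, E1 z / E1 (1 / embK (f : K)) = ev z / ev (1 / embK (f : K)) := by
        intro z
        rw [ev, ev, div_div_div_cancel_right₀ Om_ne_zero]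
      rw [hev, hev, map_div₀, h4, hone, mul_div_mul_left _ _ hu0, mul_div_assoc]

end Pool.Agent.Lib.MP_1a91b9_ntT.Rg
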