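import Pool.Agent.Lib.MP_1a91b9_ntT.Rq.De
import Pool.Agent.Lib.MP_1a91b9_ntT.Rg.Kap

/-!
# Rg: the smoothed indicator function is invariant under `z ↦ χ z`, `χ ≡ 1 mod f`
-/

set_option autoImplicit false

namespace Pool.Agent.Lib.MP_1a91b9_ntT.Rg

open NumberField

universe u

variable {F : Type u} [Field F] [NumberField F] [Algebra K F]

private theorem DE1_mulI (𝔟 : Ideal (𝓞 F)) (β₀ : 𝓞 F) (M : ℕ) (X A B : 𝓞 F)
    (hABF : (A : F) * (X : F) + (B : F) * (M : F) = 1) (z : F) (c : 𝓞 F) (hc : c ∈ 𝔟)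
    (hz : (M : F) * z = (β₀ : F) * (c : F)) : (X : F) * z ∈ mulI 𝔟 β₀ ↔ z ∈ mulI 𝔟 β₀ := by
  constructor
  · rintro ⟨w, hw, hwz⟩
    refine ⟨A * w + B * c, 𝔟.add_mem (𝔟.mul_mem_left _ hw) (𝔟.mul_mem_left _ hc), ?_⟩
    rw [de2_add, de2_mul, de2_mul]
    linear_combination (-z) * hABF + (A : F) * hwz + (B : F) * hz
  · rintro ⟨w, hw, hwz⟩
    refine ⟨X * w, 𝔟.mul_mem_left _ hw, ?_⟩
    rw [de2_mul, hwz]
    ring

private theorem DE1_ring1 {R : Type*} [CommRing R] (𝔟 : Ideal R) {t r m X A B M w' c w : R}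
    (ht : t ∈ 𝔟) (hM : M = r * m) (hAB : A * X + B * M = 1) (hX1 : X - 1 ∈ Ideal.span {r})
    (hw : w = A * w' + B * c) (hXw : X * w = w') (hw' : w' - t ∈ Ideal.span {r} * 𝔟)
    (hc : c ∈ 𝔟) : w - t ∈ Ideal.span {r} * 𝔟 := by
  have hwb : w' ∈ 𝔟 := by
    have h0 : Ideal.span {r} * 𝔟 ≤ 𝔟 := Ideal.mul_le_right
    have h1 : w' - t ∈ 𝔟 := h0 hw'
    have h2 := 𝔟.add_mem h1 ht
    rwa [sub_add_cancel] at h2
  have hwb' : w ∈ 𝔟 := by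
    rw [hw]
    exact 𝔟.add_mem (𝔟.mul_mem_left _ hwb) (𝔟.mul_mem_left _ hc)
  have e1 : w - t = A * ((w' - t) - (X - 1) * t) + B * (r * (m * (w - t))) := by
    rw [← hXw]
    rw [hM] at hAB
    linear_combination (-(w - t)) * hAB
  rw [e1]
  refine Ideal.add_mem _ (Ideal.mul_mem_left _ _ (Ideal.sub_mem _ hw' ?_))
    (Ideal.mul_mem_left _ _ ?_)
  · exact Ideal.mul_mem_mul hX1 ht
  · exact Ideal.mul_mem_mul (Ideal.mem_span_singleton_self _)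
      (𝔟.mul_mem_left _ (𝔟.sub_mem hwb' ht))

private theorem DE1_ring2 {R : Type*} [CommRing R] (𝔟 : Ideal R) {t r X w : R}
    (ht : t ∈ 𝔟) (hX1 : X - 1 ∈ Ideal.span {r}) (hw : w - t ∈ Ideal.span {r} * 𝔟) :
    X * w - t ∈ Ideal.span {r} * 𝔟 := by
  have e1 : X * w - t = X * (w - t) + (X - 1) * t := by ring
  rw [e1]
  exact Ideal.add_mem _ (Ideal.mul_mem_left _ _ hw) (Ideal.mul_mem_mul hX1 ht)

private theorem DE1_cls (𝔟 : Ideal (𝓞 F)) (r t : 𝓞 F) (ht : t ∈ 𝔟) (M : ℕ) (m : 𝓞 F)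
    (hm : (M : 𝓞 F) = r * m) (X A B : 𝓞 F) (hAB : A * X + B * (M : 𝓞 F) = 1)
    (hABF : (A : F) * (X : F) + (B : F) * (M : F) = 1) (hX1 : X - 1 ∈ Ideal.span {r})
    (z : F) (c : 𝓞 F) (hc : c ∈ 𝔟) (hz : (M : F) * z = (c : F)) :
    (X : F) * z ∈ cls 𝔟 (Ideal.span {r}) t ↔ z ∈ cls 𝔟 (Ideal.span {r}) t := by
  constructor
  · rintro ⟨w', hwz, hw'⟩
    have hzw : ((A * w' + B * c : 𝓞 F) : F) = z := by
      rw [de2_add, de2_mul, de2_mul]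
      linear_combination z * hABF + (A : F) * hwz - (B : F) * hz
    have hXw : X * (A * w' + B * c) = w' := by
      apply de2_inj
      rw [de2_mul, hzw, hwz]
    exact ⟨A * w' + B * c, hzw, DE1_ring1 𝔟 ht hm hAB hX1 rfl hXw hw' hc⟩
  · rintro ⟨w, hwz, hw⟩
    exact ⟨X * w, by rw [de2_mul, hwz], DE1_ring2 𝔟 ht hX1 hw⟩

private theorem DE1_main (𝔟 : Ideal (𝓞 F)) (r t β' β : 𝓞 F) (b : 𝓞 K) (ht : t ∈ 𝔟) (M : ℕ)
    (m : 𝓞 F) (hm : (M : 𝓞 F) = r * m) (X A B : 𝓞 F) (hAB : A * X + B * (M : 𝓞 F) = 1)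
    (hABF : (A : F) * (X : F) + (B : F) * (M : F) = 1) (hX1 : X - 1 ∈ Ideal.span {r})
    (z : F) (y : 𝓞 F) (hy : y ∈ 𝔟)
    (hz : (M : F) * z = (r : F) * (β : F) * (β' : F) * (y : F)) :
    del 𝔟 (Ideal.span {r}) t β' β b ((X : F) * z) = del 𝔟 (Ideal.span {r}) t β' β b z := by
  have e1 := DE1_mulI 𝔟 β M X A B hABF z (r * (β' * y))
    (𝔟.mul_mem_left _ (𝔟.mul_mem_left _ hy)) (by
      rw [hz, de2_mul, de2_mul]
      ring)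
  have e2 := DE1_mulI 𝔟 β' M X A B hABF z (r * (β * y))
    (𝔟.mul_mem_left _ (𝔟.mul_mem_left _ hy)) (by
      rw [hz, de2_mul, de2_mul]
      ring)
  have e3 := DE1_cls 𝔟 r t ht M m hm X A B hAB hABF hX1 z (r * (β * (β' * y)))
    (𝔟.mul_mem_left _ (𝔟.mul_mem_left _ (𝔟.mul_mem_left _ hy))) (by
      rw [hz, de2_mul, de2_mul, de2_mul]
      ring)
  unfold del
  rw [propext e1, propext e2, propext e3]

theorem de_chi (𝔟 : Ideal (𝓞 F)) (r t β' β : 𝓞 F) (b : 𝓞 K) (ht : t ∈ 𝔟) (M : ℕ)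
    (hM3 : r ∣ (M : 𝓞 F))
    (χ : 𝓞 K) (h3 : r ∣ algebraMap (𝓞 K) (𝓞 F) χ - 1) (hc : IsCoprime χ (M : 𝓞 K)) (z : F)
    (hz : ∃ y ∈ 𝔟, (M : F) * z = (r : F) * (β : F) * (β' : F) * (y : F)) :
    del 𝔟 (Ideal.span {r}) t β' β b (algebraMap K F (χ : K) * z) =
      del 𝔟 (Ideal.span {r}) t β' β b z := by
  obtain ⟨y, hy, hyz⟩ := hz
  obtain ⟨a, b₁, hab⟩ := hc
  obtain ⟨m, hm⟩ := hM3
  obtain ⟨X, hX⟩ : ∃ X : 𝓞 F, X = algebraMap (𝓞 K) (𝓞 F) χ := ⟨_, rfl⟩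
  obtain ⟨A, hA⟩ : ∃ A : 𝓞 F, A = algebraMap (𝓞 K) (𝓞 F) a := ⟨_, rfl⟩
  obtain ⟨B, hB⟩ : ∃ B : 𝓞 F, B = algebraMap (𝓞 K) (𝓞 F) b₁ := ⟨_, rfl⟩
  have hXF : algebraMap K F (χ : K) = (X : F) := by
    rw [hX]
    rfl
  have hAB : A * X + B * (M : 𝓞 F) = 1 := by
    have h1 := congrArg (algebraMap (𝓞 K) (𝓞 F)) hab
    rwa [map_add, map_mul, map_mul, map_natCast, map_one, ← hX, ← hA, ← hB] at h1
  have hABF : (A : F) * (X : F) + (B : F) * (M : F) = 1 := by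
    have h1 := congrArg (fun w : 𝓞 F => (w : F)) hAB
    simp only [de2_add, de2_mul, de2_nat] at h1
    rw [h1]
    rfl
  have hX1 : X - 1 ∈ Ideal.span {r} := by
    rw [Ideal.mem_span_singleton, hX]
    exact h3
  rw [hXF]
  exact DE1_main 𝔟 r t β' β b ht M m hm X A B hAB hABF hX1 z y hy hyz

/-- Every finite set of elements has a common denominator for a nonzero ideal. -/
theorem de_den (𝔟 : Ideal (𝓞 F)) (hb : 𝔟 ≠ ⊥) (r β β' : 𝓞 F) (hr : r ≠ 0) (hβ : β ≠ 0)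
    (hβ' : β' ≠ 0) (Z : Finset F) : ∃ M : ℕ, 0 < M ∧ r ∣ (M : 𝓞 F) ∧
      ∀ z ∈ Z, ∃ y ∈ 𝔟, (M : F) * z = (r : F) * (β : F) * (β' : F) * (y : F) := by
  obtain ⟨M, hM, -, h⟩ := Rq.de_den 𝔟 hb β β' hβ hβ' Z
  obtain ⟨N, hN⟩ : ∃ N : ℕ, N = Ideal.absNorm (Ideal.span {r}) := ⟨_, rfl⟩
  have hN0 : 0 < N := by
    rw [hN, Nat.pos_iff_ne_zero, Ne, Ideal.absNorm_eq_zero_iff, Ideal.span_singleton_eq_bot]
    exact hr
  obtain ⟨r', hr'⟩ : r ∣ (N : 𝓞 F) := by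
    rw [← Ideal.mem_span_singleton, hN]
    exact Ideal.absNorm_mem _
  refine ⟨N * M, Nat.mul_pos hN0 hM, ⟨r' * (M : 𝓞 F), ?_⟩, fun z hz => ?_⟩
  · push_cast
    rw [hr']
    ring
  · obtain ⟨y, hy, hyz⟩ := h z hz
    refine ⟨r' * (((3 : ℕ) : 𝓞 F) * y), 𝔟.mul_mem_left _ (𝔟.mul_mem_left _ hy), ?_⟩
    have h1 : (N : F) = (r : F) * (r' : F) := by
      rw [← de2_mul, ← hr', de2_nat]
    rw [de2_mul, de2_mul, de2_nat]
    push_cast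
    rw [h1]
    linear_combination (r : F) * (r' : F) * hyz

end Pool.Agent.Lib.MP_1a91b9_ntT.Rg
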