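import Pool.Agent.Lib.MP_1a91b9_ntT.Rg.Un
import Pool.Agent.Lib.MP_1a91b9_ntT.Rg.Vm
import Pool.Agent.Lib.MP_1a91b9_ntT.S7.Plug

/-!
# Rg: `L(ψbar_F, 1)` is `κ ^ n * d * x` with `x ∈ K`, for every finite extension `F / K`
-/

set_option autoImplicit false

namespace Pool.Agent.Lib.MP_1a91b9_ntT.Rg

open NumberField IsDedekindDomain Pool.Agent.Lib.MP_1a91b9_nt Pool.Agent.Lib.MP_1a91b9_ntT
  Pool.Agent.Lib.MP_1a91b9_ntT.S4 Pool.Agent.Lib.MP_1a91b9_ntG
open Pool.Agent.Lib.MP_1a91b9_ntT.Rq (dt)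

universe u

variable {F : Type u} [Field F] [NumberField F] [Algebra K F]

/-- The units congruent to `1` modulo `f` have relative norm `1`. -/
theorem norm_one (f : 𝓞 K) [hf : IsMod f] (u : (𝓞 F)ˣ) (hu : u ∈ unV (Ideal.span {up f F})) :
    Algebra.norm K ((u : 𝓞 F) : F) = 1 := by
  have h1 : algebraMap (𝓞 K) (𝓞 F) f ∣ (u : 𝓞 F) - 1 := Ideal.mem_span_singleton.1 hu
  have h2 := S4.nK_congr (F := F) f (u : 𝓞 F) 1 h1
  rw [S4.nK_one] at h2
  have h3 : IsUnit (S4.nK (u : 𝓞 F)) := u.isUnit.map (Algebra.intNorm (𝓞 K) (𝓞 F))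
  obtain ⟨u', hu'⟩ := h3
  rw [← hu'] at h2
  have h4 := hf.inj u' h2
  have h5 : (S4.nK (u : 𝓞 F) : 𝓞 K) = 1 := by rw [← hu', h4, Units.val_one]
  rw [← S4.nK_coe, h5]
  exact map_one _

theorem lval {m : ℕ} (f : 𝓞 K) [hf : IsMod f] {κ : ℂ} (hκ : Kap f κ)
    (σ : Fin (m + 1) → (F →ₐ[K] ℂ)) (hσ : Function.Bijective σ)
    (htor : ∀ v ∈ unV (Ideal.span {up f F}), ∀ k : ℕ, 0 < k → v ^ k = 1 → v = 1)
    (bb : Module.Basis (Fin (m + 1)) K F) :
    ∃ (L : ℂ → ℂ) (x : K), Differentiable ℂ L ∧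
      (∀ s : ℂ, 2 < s.re → L s = Lf (psbC f F) s) ∧ L 1 = κ ^ (m + 1) * dt σ bb * embK x := by
  have hn : Module.finrank K F = m + 1 := nf_card σ hσ
  obtain ⟨q, hq, hq3, h2, h2n, hfq⟩ := exists_q f hf.ne (Module.finrank K F) (by omega)
  have h3q : Nat.Coprime 3 q := (Nat.coprime_primes Nat.prime_three hq).2 (Ne.symm hq3)
  have h30 : Ideal.span {up f F} ≠ 0 := by
    rw [Ne, Ideal.zero_eq_bot, Ideal.span_singleton_eq_bot]
    intro h
    exact hf.ne ((FaithfulSMul.algebraMap_injective (𝓞 K) (𝓞 F)) (by rw [map_zero]; exact h))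
  have h31 : Ideal.span {up f F} ≠ 1 := up_span_ne_top
  have h32 : IsCoprime (Ideal.span {up f F}) (Ideal.span {(q : 𝓞 F)}) := by
    rw [Ideal.isCoprime_span_singleton_iff]
    have h := hfq.map (algebraMap (𝓞 K) (𝓞 F))
    rwa [map_natCast] at h
  have hc0 : Ideal.span {(q : 𝓞 F)} ≠ 0 := by
    rw [Ne, Ideal.zero_eq_bot, Ideal.span_singleton_eq_bot]
    exact_mod_cast hq.ne_zero
  have hu : ∀ v ∈ unV (Ideal.span {up f F}), Algebra.norm K ((v : 𝓞 F) : F) = 1 :=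
    fun v hv => norm_one f v hv
  obtain ⟨ι, hι, b, t, J, k, h1, h4⟩ := unfold_K f (Ideal.span {(q : 𝓞 F)}) (Ideal.span {up f F})
    hc0 h30 h31 le_rfl
  have hgood : ∀ i, ∃ g : ℂ → ℂ, Differentiable ℂ g ∧
      (∀ X : Set F, IsRepsU (Ideal.span {up f F}) (cls (b i) (Ideal.span {up f F}) (t i)) X →
        ∀ s : ℂ, 2 < s.re → HasSum (fun z : X => term s (z : F)) (g s)) := fun i =>
    Ell.co_entire hq 3 le_rfl h3q 2 h2 h2n σ hσ (b i) (Ideal.span {up f F}) (h1 i).1 h30 h32 hu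
      htor (t i) (h1 i).2.2.2.1 (h1 i).2.2.2.2.1
  choose A hA hAs using hgood
  have hNb : ∀ i, (Ideal.absNorm (b i) : ℂ) ≠ 0 := by
    intro i
    have := Ideal.absNorm_ne_zero_iff_mem_nonZeroDivisors.mpr
      (mem_nonZeroDivisors_iff_ne_zero.mpr (h1 i).1)
    exact_mod_cast this
  have hsum : ∀ s : ℂ, 2 < s.re → ∑ i, indC (Ideal.span {up f F}) (J i) *
      embK (k i) * (Ideal.absNorm (b i) : ℂ) ^ s * A i s = Lf (psbC f F) s := by
    intro s hs
    rw [← h4 A (fun i R hR s hs => S7.hasSum_coe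
      (hAs i _ (S7.repsU_of_isRep (h1 i).2.2.2.2.1 hR) s hs)) (indC _)
      (fun I hI => indC_of_not hI) (norm_indC_le _) (indC_ray _) s hs]
    have hfin : {v : HeightOneSpectrum (𝓞 F) | Ideal.span {up f F} ≤ v.asIdeal}.Finite := by
      refine (Ideal.finite_factors h30).subset fun v hv => ?_
      exact Ideal.dvd_iff_le.mpr hv
    rw [MP_1a91b9_ntG.Lf_indC _ hfin.toFinset (fun v => by rw [Set.Finite.mem_toFinset]; rfl) s hs]
    have e : ∏ v ∈ hfin.toFinset, (1 - psbC f F v.asIdeal *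
        (Ideal.absNorm v.asIdeal : ℂ) ^ (-s)) = 1 := by
      refine Finset.prod_eq_one fun v hv => ?_
      rw [Set.Finite.mem_toFinset] at hv
      have hv' : Ideal.span {up f F} ≤ v.asIdeal := hv
      rw [Ideal.span_singleton_le_iff_mem] at hv'
      rw [psbC_bad v hv', zero_mul, sub_zero]
    rw [e, mul_one]
  have hdiff : Differentiable ℂ fun s : ℂ => ∑ i, indC (Ideal.span {up f F}) (J i) *
      embK (k i) * (Ideal.absNorm (b i) : ℂ) ^ s * A i s := by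
    refine Differentiable.fun_sum fun i _ => ?_
    refine Differentiable.mul ?_ (hA i)
    refine Differentiable.mul (differentiable_const _) ?_
    exact (differentiable_id).const_cpow (Or.inl (hNb i))
  choose x hx using fun i => val_K hκ hf.ne σ hσ hu htor (b i) (h1 i).1 (t i)
    (h1 i).2.2.2.1 (h1 i).2.2.2.2.1 (A i) (hA i) (hAs i) bb
  refine ⟨_, ∑ i, k i * (Ideal.absNorm (b i) : K) * x i, hdiff, hsum, ?_⟩
  rw [map_sum, Finset.mul_sum]
  refine Finset.sum_congr rfl fun i _ => ?_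
  rw [indC_of (h1 i).2.2.2.2.2, one_mul, Complex.cpow_one, hx i, map_mul, map_mul, map_natCast]
  ring

end Pool.Agent.Lib.MP_1a91b9_ntT.Rg
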