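import Pool.Agent.Lib.MP_1a91b9_ntT.Rg.Su
import Pool.Agent.Lib.MP_1a91b9_ntT.Rg.Fx
import Pool.Agent.Lib.MP_1a91b9_ntT.Rq.Va
import Pool.Agent.Lib.MP_1a91b9_ntT.D6.Main

/-!
# Rg: the values of the partial L-series are fixed by the automorphisms over `K`
-/

set_option autoImplicit false

namespace Pool.Agent.Lib.MP_1a91b9_ntT.Rg

open NumberField Pool.Agent.Lib.MP_1a91b9_ntG Pool.Agent.Lib.MP_1a91b9_ntT.Ell
open Pool.Agent.Lib.MP_1a91b9_ntT.Rq (Fix dt dt_ne dt_rel fx_K va_conj)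

universe u

variable {F : Type u} [Field F] [NumberField F] [Algebra K F]

/-- The form of the result for an auxiliary prime number `q`. -/
theorem val_fixed_q {q : ℕ} (hq : q.Prime) (hq3 : q ≠ 3) (ε₀ : 𝓞 K) (hε₀ : IsCoprime ε₀ (q : 𝓞 K))
    (hε₁ : IsCoprime (ε₀ ^ Module.finrank K F - 1) (q : 𝓞 K))
    {m : ℕ} {τ : ℂ ≃+* ℂ} (hτ : Fix τ) {f : 𝓞 K} {κ : ℂ} (hκ : Kap f κ) (hf0 : f ≠ 0)
    (hfq : IsCoprime f (q : 𝓞 K)) (σ : Fin (m + 1) → (F →ₐ[K] ℂ))
    (hσ : Function.Bijective σ)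
    (hu : ∀ v ∈ unV (Ideal.span {up f F}), Algebra.norm K ((v : 𝓞 F) : F) = 1)
    (htor : ∀ v ∈ unV (Ideal.span {up f F}), ∀ k : ℕ, 0 < k → v ^ k = 1 → v = 1)
    (𝔟 : Ideal (𝓞 F)) (hb : 𝔟 ≠ ⊥) (t : 𝓞 F) (ht : t ∈ 𝔟) (ht' : t ∉ Ideal.span {up f F} * 𝔟)
    (g : ℂ → ℂ) (hg : Differentiable ℂ g)
    (hgs : ∀ X : Set F, IsRepsU (Ideal.span {up f F}) (cls 𝔟 (Ideal.span {up f F}) t) X →
      ∀ s : ℂ, 2 < s.re → HasSum (fun z : X => term s (z : F)) (g s))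
    (bb : Module.Basis (Fin (m + 1)) K F) :
    τ (g 1 / (κ ^ (m + 1) * dt σ bb)) = g 1 / (κ ^ (m + 1) * dt σ bb) := by
  classical
  have hn : Module.finrank K F = m + 1 := nf_card σ hσ
  have hq1 : q ≠ 1 := hq.one_lt.ne'
  have h3q : Nat.Coprime 3 q := (Nat.coprime_primes Nat.prime_three hq).2 (Ne.symm hq3)
  have hup : up f F ≠ 0 := by
    intro h
    exact hf0 ((FaithfulSMul.algebraMap_injective (𝓞 K) (𝓞 F)) (by rw [map_zero]; exact h))
  have hm : (Ideal.span {up f F} : Ideal (𝓞 F)) ≠ ⊥ := by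
    rw [Ne, Ideal.span_singleton_eq_bot]
    exact hup
  have hm2 : IsCoprime (Ideal.span {up f F} : Ideal (𝓞 F)) (Ideal.span {(q : 𝓞 F)}) := by
    rw [Ideal.isCoprime_span_singleton_iff]
    have h := hfq.map (algebraMap (𝓞 K) (𝓞 F))
    rwa [map_natCast] at h
  obtain ⟨N, hNodd, hN⟩ : ∃ N : ℕ, N.Coprime q ∧ (N : 𝓞 F) ∈ (Ideal.span {up f F} : Ideal (𝓞 F)) :=
    ⟨Ideal.absNorm (Ideal.span {up f F}), absNorm_cop hq _ hm2, Ideal.absNorm_mem _⟩
  have hN3 : (3 * N).Coprime q := Nat.Coprime.mul_left h3q hNodd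
  obtain ⟨β', b', hβ'⟩ := Ell.sm_exists (F := F) hq ε₀ hε₀ hε₁ (3 * N) hN3
  have hR' : ((3 * N : ℕ) : 𝓞 F) ∈ (Ideal.span {up f F} : Ideal (𝓞 F)) := by
    push_cast
    exact Ideal.mul_mem_left _ _ hN
  obtain ⟨b1, hbb, hbb'⟩ := dl_basis 𝔟 hb hn
  obtain ⟨v₀, hv₀⟩ := Ell.gen_exists hq1 𝔟 hb hβ'
  obtain ⟨ε, hε, hεb⟩ := Ell.un_free σ hσ (Ideal.span {up f F}) hm htor
  obtain ⟨S, hS1, hS2, hS3⟩ := Ell.co_S hq 𝔟 β' b' hβ' b1 hbb v₀ hv₀ ε
  obtain ⟨R₀, hR₀, hadm⟩ := Ell.de_adm hq 𝔟 (Ideal.span {up f F}) hb hm t ht 3 le_rfl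
    (Dvd.intro N rfl) β' b' hβ' S hS1
  have hN1 : (Ideal.absNorm (Ideal.span {β'})).Coprime q := absNorm_cop' hq β' (de_copq hβ')
  have hN2 : β' ∣ ((Ideal.absNorm (Ideal.span {β'}) : ℕ) : 𝓞 F) := by
    rw [← Ideal.mem_span_singleton]
    exact Ideal.absNorm_mem _
  obtain ⟨N', hN'⟩ : ∃ N' : ℕ, N' = Ideal.absNorm (Ideal.span {β'}) := ⟨_, rfl⟩
  rw [← hN'] at hN1 hN2
  have hRodd : (3 * R₀ * N * N').Coprime q :=
    Nat.Coprime.mul_left (Nat.Coprime.mul_left (Nat.Coprime.mul_left h3q hR₀) hNodd) hN1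
  obtain ⟨β, b, hβ⟩ := Ell.sm_exists (F := F) hq ε₀ hε₀ hε₁ (3 * R₀ * N * N') hRodd
  have hR : ((3 * R₀ * N * N' : ℕ) : 𝓞 F) ∈ (Ideal.span {up f F} : Ideal (𝓞 F)) := by
    push_cast
    exact Ideal.mul_mem_right _ _ (Ideal.mul_mem_left _ _ hN)
  have hcop : IsCoprime β β' := by
    have h := Ell.de_cop hq hβ N' (Nat.pos_of_ne_zero (cop_ne hq hN1)) (fun t _ ht2 => ht2.mul_left _)
    exact h.of_isCoprime_of_dvd_right hN2
  have hne : ∀ {R : ℕ} {γ : 𝓞 F} {c : 𝓞 K}, Ell.Smooth q R γ c → γ ≠ 0 := by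
    rintro R γ c h rfl
    have h1 := h.nrm
    have h2 : c = 0 := by
      have h3 : Algebra.norm K ((0 : 𝓞 F) : F) = 0 := by
        rw [show ((0 : 𝓞 F) : F) = 0 from rfl]
        exact Algebra.norm_zero
      rw [h3] at h1
      exact_mod_cast h1.symm
    exact kq_ne hq1 h.c0 h2
  have hβ0 : β ≠ 0 := hne hβ
  have hβ'0 : β' ≠ 0 := hne hβ'
  have hAdm := hadm (3 * R₀ * N * N') β b
    (((Dvd.intro_left 3 rfl).mul_right _).mul_right _) hβ
  obtain ⟨I, hI1, hI2, hI3, hI4⟩ := s2_main σ hσ (del 𝔟 (Ideal.span {up f F}) t β' β b) (S : Set F)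
    S.finite_toSet hAdm
  obtain ⟨ε', hε'⟩ : ∃ ε' : Fin m → F, ε' = fun i => ((ε i : 𝓞 F) : F) := ⟨_, rfl⟩
  obtain ⟨g₂, hg₂, hg₂s, hg₂v⟩ := hI4 (fun i => ((ε i : 𝓞 F) : F)) (fun i => by
      have h1 : ((ε i : (𝓞 F)ˣ) : 𝓞 F) ≠ 0 := (ε i).ne_zero
      exact RingOfIntegers.coe_ne_zero_iff.2 h1)
    (fun i => hu (ε i) (hε i))
    (fun i z => (co_inv 𝔟 (Ideal.span {up f F}) t ht β' β b (ε i) (hε i) z).1)
    (Ell.un_det σ hσ (Ideal.span {up f F}) hm ε hεb)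
  -- the value of `g₂` at `1`
  have hval := hg₂v v₀ (by
      have h1 := hS2 ∅
      rw [Finset.prod_empty, mul_one] at h1
      exact (hAdm.ne v₀ h1).1) (fun T => hS2 T)
  -- the invariance
  have hd0 : dt σ b1 ≠ 0 := dt_ne σ hσ b1
  have hOn : κ ^ (m + 1) ≠ 0 := pow_ne_zero _ hκ.ne
  obtain ⟨C, hC⟩ : ∃ C : ℂ, C = κ ^ (m + 1) * dt σ b1 := ⟨_, rfl⟩
  have hC0 : C ≠ 0 := by rw [hC]; exact mul_ne_zero hOn hd0
  have hpath : ∀ s : Equiv.Perm (Fin m), τ (I (path (fun i => ((ε i : 𝓞 F) : F)) s v₀) / C) =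
      I (path (fun i => ((ε i : 𝓞 F) : F)) s v₀) / C := by
    intro s
    have h := hS3 (fun v => τ (I v / C) - I v / C) ⊥ (fun w hw => ?_) (fun w hw hd => ?_) ?_ s
    · exact sub_eq_zero.1 ((AddSubgroup.mem_bot).1 h)
    · have h1 := hI1 w hw
      have h2 : ∑ i : Fin (m + 2), (-1) ^ (i : ℕ) * (I (fun j => w (i.succAbove j)) / C) = 0 := by
        have h4 : ∀ i : Fin (m + 2), (-1 : ℂ) ^ (i : ℕ) * (I (fun j => w (i.succAbove j)) / C) =
            ((-1) ^ (i : ℕ) * I (fun j => w (i.succAbove j))) / C := fun i => by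
          rw [mul_div_assoc]
        rw [Finset.sum_congr rfl fun i _ => h4 i, ← Finset.sum_div, h1, zero_div]
      have h5 := congrArg τ h2
      rw [map_sum, map_zero] at h5
      have h6 : ∀ i : Fin (m + 2), τ ((-1 : ℂ) ^ (i : ℕ) * (I (fun j => w (i.succAbove j)) / C)) =
          (-1) ^ (i : ℕ) * τ (I (fun j => w (i.succAbove j)) / C) := fun i => by
        rw [map_mul, map_pow, map_neg, map_one]
      rw [Finset.sum_congr rfl fun i _ => h6 i] at h5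
      have h7 : ∀ i : Fin (m + 2), (-1 : ℂ) ^ (i : ℕ) *
          (τ (I (fun j => w (i.succAbove j)) / C) - I (fun j => w (i.succAbove j)) / C) =
          (-1) ^ (i : ℕ) * τ (I (fun j => w (i.succAbove j)) / C) -
            (-1) ^ (i : ℕ) * (I (fun j => w (i.succAbove j)) / C) := fun i => mul_sub _ _ _
      rw [Finset.sum_congr rfl fun i _ => h7 i, Finset.sum_sub_distrib, h5, h2, sub_zero]
    · change τ (I w / C) - I w / C = 0
      rw [hI2 w hw hd, zero_div, map_zero, sub_zero]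
    · intro w hw hl huni
      rw [AddSubgroup.mem_bot]
      obtain ⟨D, c, -, -, hD, hc, h1, h2⟩ := Ell.fr_val hq 𝔟 (Ideal.span {up f F}) hm2 t ht β' β b' b
        hβ' hβ b1 hbb hbb' w (fun i => hS1 _ (hw i)) huni
      obtain ⟨zz, hzz⟩ := co3_zz hn w hl
      have hsum := sum_fixed hτ hκ hup 𝔟 hb t ht β' β hβ'0 hβ0 b w D c hD hc h2 zz hzz
      have hIw := hI3 w hw hl D c hD hc h1 h2 zz hzz
      have hdw : (Matrix.of fun i j => σ j (w i)).det = embK (b1.det w) * dt σ b1 := dt_rel σ b1 w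
      have hE : ∀ x : Fin (m + 1) → Fin (c * D) × Fin (c * D),
          ∏ i, (c : ℂ)⁻¹ * E1 (ixC D c (x i) / c) =
            κ ^ (m + 1) * ∏ i, (c : ℂ)⁻¹ * (E1 (ixC D c (x i) / c) / κ) := by
        intro x
        have h4 : ∀ i, (c : ℂ)⁻¹ * E1 (ixC D c (x i) / c) =
            κ * ((c : ℂ)⁻¹ * (E1 (ixC D c (x i) / c) / κ)) := fun i => by
          rw [mul_left_comm, mul_div_cancel₀ _ hκ.ne]
        rw [Finset.prod_congr rfl fun i _ => h4 i, Finset.prod_mul_distrib, Finset.prod_const,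
          Finset.card_univ, Fintype.card_fin]
      obtain ⟨Sg, hSg⟩ : ∃ Sg : ℂ, Sg = ∑ x : Fin (m + 1) → Fin (c * D) × Fin (c * D),
        del 𝔟 (Ideal.span {up f F}) t β' β b (zz fun i => ixK D c (x i)) *
          ∏ i, (c : ℂ)⁻¹ * (E1 (ixC D c (x i) / c) / κ) := ⟨_, rfl⟩
      have hsum2 : ∑ x : Fin (m + 1) → Fin (c * D) × Fin (c * D),
          del 𝔟 (Ideal.span {up f F}) t β' β b (zz fun i => ixK D c (x i)) *
            ∏ i, (c : ℂ)⁻¹ * E1 (ixC D c (x i) / c) = κ ^ (m + 1) * Sg := by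
        rw [hSg, Finset.mul_sum]
        refine Finset.sum_congr rfl fun x _ => ?_
        rw [hE x]
        ring
      rw [← hSg] at hsum
      have hquot : I w / C = embK (b1.det w) * Sg := by
        rw [hIw, hsum2, hdw, hC]
        field_simp
      change τ (I w / C) - I w / C = 0
      rw [hquot, map_mul, fx_K hτ, hsum, sub_self]
  have hg2 : τ (g₂ 1 / C) = g₂ 1 / C := by
    have h1 : g₂ 1 / C = ((SignType.sign (regM σ fun i => ((ε i : 𝓞 F) : F)).det : ℤ) : ℂ) *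
        ∑ s : Equiv.Perm (Fin m), ((Equiv.Perm.sign s : ℤ) : ℂ) *
          (I (path (fun i => ((ε i : 𝓞 F) : F)) s v₀) / C) := by
      rw [hval, mul_div_assoc, Finset.sum_div]
      congr 1
      refine Finset.sum_congr rfl fun s _ => ?_
      rw [mul_div_assoc]
    rw [h1, map_mul, map_intCast, map_sum]
    congr 1
    refine Finset.sum_congr rfl fun s _ => ?_
    rw [map_mul, map_intCast, hpath s]
  -- the functional equation of the smoothing
  obtain ⟨h0cls, hVcls⟩ := co_cls 𝔟 (Ideal.span {up f F}) t ht ht'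
  obtain ⟨X, hX⟩ := co_exists (Ideal.span {up f F}) (cls 𝔟 (Ideal.span {up f F}) t) h0cls hVcls
  have hX' : IsRepsU (Ideal.span {up f F}) (Function.support (del 𝔟 (Ideal.span {up f F}) t β' β b))
      (X \ mulI 𝔟 β') := by
    rw [Ell.co_sup hq1 𝔟 (Ideal.span {up f F}) t β' 3 le_rfl (⟨R₀ * N * N', by ring⟩) hβ]
    refine ⟨fun z hz => ⟨hX.1 hz.1, hz.2⟩, ?_⟩
    rintro z ⟨hz1, hz2⟩
    obtain ⟨v, ⟨hv1, hv2⟩, hv3⟩ := hX.2 z hz1
    refine ⟨v, ⟨hv1, hv2, ?_⟩, ?_⟩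
    · rw [co_mulI]
      exact hz2
    · rintro y ⟨hy1, hy2, -⟩
      exact hv3 y ⟨hy1, hy2⟩
  have hX'' : IsReps (fun i => ((ε i : 𝓞 F) : F))
      (Function.support (del 𝔟 (Ideal.span {up f F}) t β' β b)) (X \ mulI 𝔟 β') :=
    (co_reps (Ideal.span {up f F}) ε hε hεb _ _).1 hX'
  have heq : ∀ s : ℂ, 2 < s.re → g₂ s = g s * facQ b s * facP b' s := by
    intro s hs
    have h1 := hg₂s _ hX'' s hs
    have h2 := Ell.co_smooth hq1 𝔟 (Ideal.span {up f F}) t ht ht' hu hR hR' hβ hβ' hcop X hX s (g s)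
      (hgs X hX s hs)
    have h3' : ∀ Y : Set F, ∀ a : ℂ,
        HasSum (fun z : Y => del 𝔟 (Ideal.span {up f F}) t β' β b z * term s (z : F)) a ↔
        HasSum (Y.indicator fun z : F => del 𝔟 (Ideal.span {up f F}) t β' β b z * term s z) a :=
      fun Y a => hasSum_subtype_iff_indicator
        (f := fun z : F => del 𝔟 (Ideal.span {up f F}) t β' β b z * term s z)
    have h4 : HasSum (fun z : (X \ mulI 𝔟 β' : Set F) =>
        del 𝔟 (Ideal.span {up f F}) t β' β b z * term s (z : F)) (g₂ s) := by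
      have h5 : (fun z : (X \ mulI 𝔟 β' : Set F) =>
            del 𝔟 (Ideal.span {up f F}) t β' β b z * term s (z : F))
          = fun z : (X \ mulI 𝔟 β' : Set F) => del 𝔟 (Ideal.span {up f F}) t β' β b z *
            (starRingEnd ℂ) (NF (z : F)) * (‖NF (z : F)‖ : ℂ) ^ (-2 * s) := by
        funext z
        rw [term, mul_assoc]
      rw [h5]
      exact h1
    have h5 := (h3' _ _).1 h4
    have h6 := (h3' _ _).1 h2
    have h7 : (X \ mulI 𝔟 β').indicator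
          (fun z : F => del 𝔟 (Ideal.span {up f F}) t β' β b z * term s z)
        = X.indicator (fun z : F => del 𝔟 (Ideal.span {up f F}) t β' β b z * term s z) := by
      funext z
      by_cases hz : z ∈ X
      · by_cases hz2 : z ∈ mulI 𝔟 β'
        · have hd : del 𝔟 (Ideal.span {up f F}) t β' β b z = 0 := by
            unfold del
            rw [if_neg]
            exact fun h => h.2 hz2
          rw [Set.indicator_of_notMem (fun h => h.2 hz2), Set.indicator_of_mem hz, hd, zero_mul]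
        · rw [Set.indicator_of_mem (show z ∈ X \ mulI 𝔟 β' from ⟨hz, hz2⟩),
            Set.indicator_of_mem hz]
      · rw [Set.indicator_of_notMem (fun h => hz h.1), Set.indicator_of_notMem hz]
    rw [h7] at h5
    exact h5.unique h6
  have hid : g₂ = fun s => g s * facQ b s * facP b' s := by
    have hd2 : Differentiable ℂ (fun s => g s * facQ b s * facP b' s) :=
      (hg.mul (facQ_diff b (kq_ne hq1 hβ.c0))).mul (facP_diff b' (kq_ne hq1 hβ'.c0))
    have ha1 : AnalyticOnNhd ℂ g₂ Set.univ := fun z _ => hg₂.analyticAt z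
    have ha2 : AnalyticOnNhd ℂ (fun s => g s * facQ b s * facP b' s) Set.univ :=
      fun z _ => hd2.analyticAt z
    refine ha1.eq_of_eventuallyEq ha2 (z₀ := 3) ?_
    have hopen : IsOpen {s : ℂ | 2 < s.re} := isOpen_lt continuous_const Complex.continuous_re
    filter_upwards [hopen.mem_nhds (show (3 : ℂ) ∈ {s : ℂ | 2 < s.re} by
      show (2 : ℝ) < (3 : ℂ).re
      norm_num)] with s hs
    exact heq s hs
  have hg1 : g₂ 1 = g 1 * facQ b 1 * facP b' 1 := congrFun hid 1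
  -- the factors are in `K`
  obtain ⟨A, hA⟩ := d3_exists hq
  obtain ⟨hQ1, -, hP1, -⟩ := Ell.co3_fac A hA b b' hβ.c0 hβ.c1 hβ'.c0 hβ'.c1
  obtain ⟨-, -, hbA⟩ := kq_unitA A hA b hβ.c0
  obtain ⟨-, -, hbA'⟩ := kq_unitA A hA b' hβ'.c0
  have e1 : facQ b 1 = -(starRingEnd ℂ) (embK ((b - 1 : 𝓞 K) : K)) := by
    unfold facQ
    rw [co3_cpow _ hbA]
    have h2 : (((‖embK (b : K)‖ ^ 2 : ℝ)) : ℂ) = embK (b : K) * (starRingEnd ℂ) (embK (b : K)) := by
      rw [Complex.mul_conj, Complex.normSq_eq_norm_sq]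
    have h3 : (starRingEnd ℂ) (embK (b : K)) ≠ 0 := by
      simpa using hbA
    have h4 : embK ((b - 1 : 𝓞 K) : K) = embK (b : K) - 1 := by
      push_cast
      rw [map_sub, map_one]
    rw [h2, h4, map_sub, map_one]
    field_simp
    ring
  have e2 : facP b' 1 = embK ((b' - 1 : 𝓞 K) : K) * (embK (b' : K))⁻¹ := by
    unfold facP
    rw [co3_cpow _ hbA']
    have h3 : (starRingEnd ℂ) (embK (b' : K)) ≠ 0 := by
      simpa using hbA'
    have h4 : embK ((b' - 1 : 𝓞 K) : K) = embK (b' : K) - 1 := by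
      push_cast
      rw [map_sub, map_one]
    rw [h4]
    field_simp
  obtain ⟨y, hy⟩ := va_conj ((b - 1 : 𝓞 K) : K)
  have hτQ : τ (facQ b 1) = facQ b 1 := by
    rw [e1, hy, map_neg, fx_K hτ]
  have hτP : τ (facP b' 1) = facP b' 1 := by
    rw [e2, map_mul, map_inv₀, fx_K hτ, fx_K hτ]
  have hkey : τ (g 1 / C) = g 1 / C := by
    have h1 : g 1 / C = g₂ 1 / C * (facQ b 1)⁻¹ * (facP b' 1)⁻¹ := by
      rw [hg1]
      field_simp
    rw [h1, map_mul, map_mul, map_inv₀, map_inv₀, hτQ, hτP, hg2]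
  have hdb : dt σ bb = embK (b1.det bb) * dt σ b1 := dt_rel σ b1 bb
  have h1 : g 1 / (κ ^ (m + 1) * dt σ bb) = g 1 / C * (embK (b1.det bb))⁻¹ := by
    rw [hdb, hC]
    have h2 : embK (b1.det bb) ≠ 0 := by
      intro h0
      rw [h0, zero_mul] at hdb
      exact dt_ne σ hσ bb hdb
    field_simp
  rw [h1, map_mul, map_inv₀, fx_K hτ, hkey]

end Pool.Agent.Lib.MP_1a91b9_ntT.Rg
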